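import Pool.Agent.L5helper80.QL.Res

set_option autoImplicit false

/-!
# MP_5bfbcb, Q2: the logarithm of a half-lacunary Fourier series belongs to some `L^p`, `p > 0`

Let `n k` be negative integers with `liminf n (k + 1) / n k > 1` (lower limit in the extended
reals), let `a : ℤ → ℂ`, and let `g = ∑ a (n k) e (n k) + ∑_{j ≥ 0} a j e j`, both series converging
in `L²(ℝ/ℤ)`.  If `g` is not the zero element of `L²`, then `log |g|` belongs to `L^p` for some
`p > 0`; the exponent depends only on a number `q > 1` with `liminf n (k + 1) / n k > q`.

Idea of the proof.  It is enough to show `|{|g| ≤ exp (-K ^ N)}| ≤ D θ ^ N` for some `K ≥ 2`,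
`θ < 1`, for Laurent polynomials with uniform constants.  Let `h i` be the largest height up to
which all negative coefficients except for a set of square sum `exp (-2 K ^ (i + 1))` can be
continued (`|g_n| ≤ exp (n h)`), let `x_k` be the corresponding part of `g` and let `U` be (a smooth
version of) the harmonic measure of `{|g| ≤ exp (-Λ)}`, `Λ = K ^ (N + 1)`.  (1) The rotations of the
proof of Q1, applied on circles inside of the disc, show that from a point at height about `h n` one
sees with positive probability points where `|x_k|` is not small.  (2) A duality argument (Cauchy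
formula on an annulus for `z ^ ν exp (μ H) x_k`, `Re H = U`, in which each block of frequencies is
integrated over a circle of its own) shows that `U` is smaller than its bound at the next level at
every point where `|x_k|` is not very small.  (3) A chain of discs joins the two, and a downward
induction over the levels `N, N - 1, ..., N / 2` gives the exponential decay in `N`.
-/

open MeasureTheory Filter

namespace Pool.Agent.Results.MP_5bfbcb_an.LogIntegrability

/-- For every `q > 1` there is `p > 0` such that for every half-lacunary Fourier series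
`g = g₁ + g₂` (negative frequencies `n k` with `liminf n (k + 1) / n k > q`, arbitrary nonnegative
frequencies) which is not the zero element of `L²(ℝ/ℤ)`, `log |g|` belongs to `L^p` (and `g ≠ 0`
almost everywhere, so that the value of the logarithm at `0` is irrelevant). -/
theorem result (q : ℝ) (hq : 1 < q) : ∃ p : ℝ, 0 < p ∧
    ∀ n : ℕ → ℤ, (∀ k, n k < 0) →
      (q : EReal) < liminf (fun k => (((n (k + 1) : ℝ) / (n k : ℝ) : ℝ) : EReal)) atTop →
      ∀ (a : ℤ → ℂ) (g₁ g₂ : Lp ℂ 2 (AddCircle.haarAddCircle : Measure (AddCircle (1 : ℝ)))),
        HasSum (fun k : ℕ => a (n k) • fourierLp 2 (n k)) g₁ →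
        HasSum (fun j : ℕ => a (j : ℤ) • fourierLp 2 (j : ℤ)) g₂ → g₁ + g₂ ≠ 0 →
        (AddCircle.haarAddCircle : Measure (AddCircle (1 : ℝ)))
            {θ : AddCircle (1 : ℝ) | (g₁ + g₂ : Lp ℂ 2 AddCircle.haarAddCircle) θ = 0} = 0 ∧
          MemLp (fun θ : AddCircle (1 : ℝ) =>
            Real.log ‖(g₁ + g₂ : Lp ℂ 2 AddCircle.haarAddCircle) θ‖) (ENNReal.ofReal p)
            AddCircle.haarAddCircle := by
  obtain ⟨p, hp, hres⟩ := Pool.Agent.L5helper80.QL.uniform q hq
  refine ⟨p, hp, fun n hneg hlac a g₁ g₂ h₁ h₂ hg => hres n hneg ?_ a g₁ g₂ h₁ h₂ hg⟩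
  filter_upwards [eventually_lt_of_lt_liminf hlac] with k hk
  exact (EReal.coe_lt_coe_iff.mp hk).le

end Pool.Agent.Results.MP_5bfbcb_an.LogIntegrability
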